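import Mathlib

set_option autoImplicit false

namespace Pool.Agent.N36.EPS

/-- the elementary abelian 2-group of rank `d` -/
abbrev E (d : ℕ) : Type := Fin d → ZMod 2

variable {d : ℕ}

lemma z2 : ∀ a : ZMod 2, a + a = 0 := by decide

lemma ee (x : E d) : x + x = 0 := by
  funext i; exact z2 _

lemma add_e_e (f e : E d) : f + e + e = f := by rw [add_assoc, ee, add_zero]

/-- translate of a function -/
def sh {A : Type} (e : E d) (w : E d → A) : E d → A := fun f => w (f + e)

lemma sh_add {A : Type} [Add A] (e : E d) (v w : E d → A) : sh e (v + w) = sh e v + sh e w := rfl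
lemma sh_zero' {A : Type} [Zero A] (e : E d) : sh e (0 : E d → A) = 0 := rfl
lemma sh_zero {A : Type} (w : E d → A) : sh (0 : E d) w = w := by
  funext f; simp [sh]
lemma sh_sh {A : Type} (e e' : E d) (w : E d → A) : sh e (sh e' w) = sh (e + e') w := by
  funext f; simp only [sh]; congr 1; abel
lemma sh_invol {A : Type} (e : E d) (w : E d → A) : sh e (sh e w) = w := by
  rw [sh_sh, ee, sh_zero]

lemma sum_shift (e : E d) (g : E d → ZMod 2) : ∑ f, g (f + e) = ∑ f, g f :=
  Equiv.sum_comp (Equiv.addRight e) g

/-- non symmetric form -/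
def al (μ : E d →+ ZMod 2) (j : E d) (a b : E d → ZMod 2) : ZMod 2 :=
  ∑ f, (1 + μ f) * a f * b (f + j)

/-- symmetric form -/
def bl (j : E d) (a b : E d → ZMod 2) : ZMod 2 := ∑ f, a f * b (f + j)

variable (μ : E d →+ ZMod 2) (j : E d)

lemma al_add_left (a a' b : E d → ZMod 2) : al μ j (a + a') b = al μ j a b + al μ j a' b := by
  simp only [al, Pi.add_apply, ← Finset.sum_add_distrib]
  refine Finset.sum_congr rfl fun f _ => ?_
  ring

lemma al_add_right (a b b' : E d → ZMod 2) : al μ j a (b + b') = al μ j a b + al μ j a b' := by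
  simp only [al, Pi.add_apply, ← Finset.sum_add_distrib]
  refine Finset.sum_congr rfl fun f _ => ?_
  ring

lemma bl_add_left (a a' b : E d → ZMod 2) : bl j (a + a') b = bl j a b + bl j a' b := by
  simp only [bl, Pi.add_apply, ← Finset.sum_add_distrib]
  refine Finset.sum_congr rfl fun f _ => ?_
  ring

lemma bl_add_right (a b b' : E d → ZMod 2) : bl j a (b + b') = bl j a b + bl j a b' := by
  simp only [bl, Pi.add_apply, ← Finset.sum_add_distrib]
  refine Finset.sum_congr rfl fun f _ => ?_
  ring

lemma al_zero_left (b : E d → ZMod 2) : al μ j 0 b = 0 := by simp [al]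
lemma al_zero_right (b : E d → ZMod 2) : al μ j b 0 = 0 := by simp [al]

variable {μ j}

lemma al_swap (hj : μ j = 1) (a b : E d → ZMod 2) : al μ j a b + al μ j b a = bl j a b := by
  have h : al μ j b a = ∑ f, μ f * a f * b (f + j) := by
    unfold al
    rw [← sum_shift j]
    refine Finset.sum_congr rfl fun f _ => ?_
    rw [add_e_e, map_add, hj]
    have : ∀ x y z : ZMod 2, (1 + (x + 1)) * y * z = x * z * y := by decide
    exact this _ _ _
  rw [h]
  unfold al bl
  rw [← Finset.sum_add_distrib]
  refine Finset.sum_congr rfl fun f _ => ?_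
  have : ∀ x y z : ZMod 2, (1 + x) * y * z + x * y * z = y * z := by decide
  exact this _ _ _

lemma al_sh (e : E d) (a b : E d → ZMod 2) :
    al μ j (sh e a) (sh e b) = al μ j a b + μ e * bl j a b := by
  unfold al bl
  rw [← sum_shift e, Finset.mul_sum, ← Finset.sum_add_distrib]
  refine Finset.sum_congr rfl fun f _ => ?_
  have h1 : sh e a (f + e) = a f := by simp only [sh]; rw [add_e_e]
  have h2 : sh e b (f + e + j) = b (f + j) := by
    simp only [sh]
    congr 1
    rw [show f + e + j + e = (f + j) + e + e by abel, add_e_e]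
  rw [h1, h2, map_add]
  ring

lemma bl_self (hj : μ j = 1) (a : E d → ZMod 2) : bl j a a = 0 := by
  rw [← al_swap hj, z2]

lemma al_sh_self (hj : μ j = 1) (e : E d) (a : E d → ZMod 2) :
    al μ j (sh e a) (sh e a) = al μ j a a := by
  rw [al_sh, bl_self hj, mul_zero, add_zero]

variable (μ j)

/-- block cocycle -/
def c1 (a : E d → ZMod 2) (e : E d) (w : E d → ZMod 2) : ZMod 2 :=
  al μ j a (sh e w) + μ e * al μ j w w

/-- block constant -/
def k1 (a : E d → ZMod 2) (e : E d) (a' : E d → ZMod 2) : ZMod 2 :=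
  al μ j a (sh e a') + μ e * al μ j a' a'

variable {μ j}

lemma c1_mul (hj : μ j = 1) (a a' : E d → ZMod 2) (e e' : E d) (w : E d → ZMod 2) :
    c1 μ j (a + sh e a') (e + e') w
      = c1 μ j a' e' w + c1 μ j a e (a' + sh e' w) + k1 μ j a e a' := by
  unfold c1 k1
  have h1 : al μ j (a + sh e a') (sh (e + e') w)
      = al μ j a (sh (e + e') w) + (al μ j a' (sh e' w) + μ e * bl j a' (sh e' w)) := by
    rw [al_add_left, ← sh_sh, al_sh, sh_sh]
  have h2 : al μ j a (sh e (a' + sh e' w)) = al μ j a (sh e a') + al μ j a (sh (e + e') w) := by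
    rw [sh_add, al_add_right, sh_sh]
  have h3 : al μ j (a' + sh e' w) (a' + sh e' w)
      = al μ j a' a' + bl j a' (sh e' w) + al μ j w w := by
    rw [al_add_left, al_add_right, al_add_right, ← al_swap hj, al_sh_self hj]
    ring
  rw [h1, h2, h3, map_add]
  generalize al μ j a (sh (e + e') w) = x1
  generalize al μ j a' (sh e' w) = x2
  generalize bl j a' (sh e' w) = x3
  generalize al μ j w w = x4
  generalize al μ j a (sh e a') = x5
  generalize al μ j a' a' = x6
  generalize μ e = x7
  generalize μ e' = x8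
  revert x1 x2 x3 x4 x5 x6 x7 x8
  decide

lemma c1_zero (w : E d → ZMod 2) : c1 μ j 0 0 w = 0 := by
  unfold c1
  rw [al_zero_left, map_zero, zero_mul, add_zero]

/-- the sum of the cocycle over two steps -/
lemma c1_two (hj : μ j = 1) (a : E d → ZMod 2) (e : E d) (w : E d → ZMod 2) :
    c1 μ j a e w + c1 μ j a e (a + sh e w)
      = al μ j a (sh e w) + al μ j a w + al μ j a (sh e a)
        + μ e * (al μ j a a + bl j a (sh e w)) := by
  unfold c1
  have h2 : al μ j a (sh e (a + sh e w)) = al μ j a (sh e a) + al μ j a w := by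
    rw [sh_add, al_add_right, sh_invol]
  have h3 : al μ j (a + sh e w) (a + sh e w)
      = al μ j a a + bl j a (sh e w) + al μ j w w := by
    rw [al_add_left, al_add_right, al_add_right, ← al_swap hj, al_sh_self hj]
    ring
  rw [h2, h3]
  generalize al μ j a (sh e w) = x2
  generalize bl j a (sh e w) = x3
  generalize al μ j w w = x4
  generalize al μ j a (sh e a) = x5
  generalize al μ j a a = x6
  generalize al μ j a w = x8
  generalize μ e = x7
  revert x2 x3 x4 x5 x6 x7 x8
  decide

/-- the sum of the cocycle over four steps -/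
lemma c1_four (hj : μ j = 1) (a : E d → ZMod 2) (e : E d) (w : E d → ZMod 2) :
    c1 μ j a e w + c1 μ j a e (a + sh e w) +
      (c1 μ j a e (a + sh e (a + sh e w)) + c1 μ j a e (a + sh e (a + sh e (a + sh e w))))
      = μ e * bl j a (sh e a) := by
  have hw : a + sh e (a + sh e w) = w + (a + sh e a) := by
    rw [sh_add, sh_invol]; abel
  rw [c1_two hj, c1_two hj, hw]
  have h1 : sh e (w + (a + sh e a)) = sh e w + (a + sh e a) := by
    rw [sh_add, sh_add, sh_invol]; abel
  rw [h1]
  simp only [al_add_right, bl_add_right, bl_self hj]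
  generalize al μ j a (sh e w) = x2
  generalize bl j a (sh e w) = x3
  generalize al μ j a (sh e a) = x5
  generalize al μ j a a = x6
  generalize al μ j a w = x8
  generalize bl j a (sh e a) = x9
  generalize μ e = x7
  revert x2 x3 x5 x6 x7 x8 x9
  decide

lemma bl_ne (a : E d → ZMod 2) (e : E d) (h : e ≠ j) : bl j a (sh e a) = 0 := by
  unfold bl
  have hne : j + e ≠ 0 := by
    intro h0
    apply h
    have : j + e + e = e := by rw [h0, zero_add]
    rw [add_e_e] at this
    exact this.symm
  refine Finset.sum_involution (fun f _ => f + (j + e)) ?_ ?_ ?_ ?_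
  · intro f _
    simp only [sh]
    have h1 : f + j + e = f + (j + e) := by abel
    have h2 : f + (j + e) + j + e = f := by
      rw [show f + (j + e) + j + e = f + (j + e) + (j + e) by abel, add_e_e]
    rw [h1, h2, mul_comm (a (f + (j + e)))]
    exact z2 _
  · intro f _ _
    intro h3
    exact hne (by simpa using h3)
  · intro f _
    exact Finset.mem_univ _
  · intro f _
    exact add_e_e _ _

lemma bl_eq (a : E d → ZMod 2) : bl j a (sh j a) = ∑ f, a f := by
  unfold bl
  refine Finset.sum_congr rfl fun f _ => ?_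
  simp only [sh]
  rw [add_e_e]
  have : ∀ x : ZMod 2, x * x = x := by decide
  exact this _

/-! ### the global cocycle -/

open Classical in
/-- a functional not vanishing at `j` -/
noncomputable def lam (j : E d) : E d →+ ZMod 2 :=
  if h : ∃ i, j i ≠ 0 then Pi.evalAddMonoidHom (fun _ => ZMod 2) (Classical.choose h) else 0

lemma lam_self (j : E d) (hj : j ≠ 0) : lam j j = 1 := by
  have h : ∃ i, j i ≠ 0 := Function.ne_iff.1 hj
  unfold lam
  rw [dif_pos h]
  have h1 := Classical.choose_spec h
  have : ∀ x : ZMod 2, x ≠ 0 → x = 1 := by decide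
  exact this _ h1

/-- the cocycle -/
noncomputable def cc (a : E d → E d) (e : E d) (w : E d → E d) : ZMod 2 :=
  ∑ j : {j : E d // j ≠ 0}, c1 (lam j.1) j.1 (fun f => lam j.1 (a f)) e (fun f => lam j.1 (w f))

/-- the constant -/
noncomputable def kk (a : E d → E d) (e : E d) (a' : E d → E d) : ZMod 2 :=
  ∑ j : {j : E d // j ≠ 0}, k1 (lam j.1) j.1 (fun f => lam j.1 (a f)) e (fun f => lam j.1 (a' f))

lemma lam_add (j : E d) (v w : E d → E d) :
    (fun f => lam j ((v + w) f)) = (fun f => lam j (v f)) + (fun f => lam j (w f)) := by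
  funext f; simp

lemma lam_sh (j e : E d) (v : E d → E d) :
    (fun f => lam j (sh e v f)) = sh e (fun f => lam j (v f)) := rfl

lemma cc_mul (a a' : E d → E d) (e e' : E d) (w : E d → E d) :
    cc (a + sh e a') (e + e') w = cc a' e' w + cc a e (a' + sh e' w) + kk a e a' := by
  unfold cc kk
  rw [← Finset.sum_add_distrib, ← Finset.sum_add_distrib]
  refine Finset.sum_congr rfl fun j _ => ?_
  rw [lam_add, lam_sh, lam_add, lam_sh]
  exact c1_mul (lam_self j.1 j.2) _ _ _ _ _

lemma cc_zero (w : E d → E d) : cc 0 0 w = 0 := by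
  unfold cc
  refine Finset.sum_eq_zero fun j _ => ?_
  have : (fun f => lam j.1 ((0 : E d → E d) f)) = 0 := by funext f; simp
  rw [this, c1_zero]

lemma cc_four (a : E d → E d) (e : E d) (he : e ≠ 0) (ha : ∑ f, a f = e) (w : E d → E d) :
    cc a e w + cc a e (a + sh e w) +
      (cc a e (a + sh e (a + sh e w)) + cc a e (a + sh e (a + sh e (a + sh e w)))) = 1 := by
  unfold cc
  rw [← Finset.sum_add_distrib, ← Finset.sum_add_distrib, ← Finset.sum_add_distrib]
  have h1 : ∀ j : {j : E d // j ≠ 0},
      c1 (lam j.1) j.1 (fun f => lam j.1 (a f)) e (fun f => lam j.1 (w f)) +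
        c1 (lam j.1) j.1 (fun f => lam j.1 (a f)) e (fun f => lam j.1 ((a + sh e w) f)) +
      (c1 (lam j.1) j.1 (fun f => lam j.1 (a f)) e (fun f => lam j.1 ((a + sh e (a + sh e w)) f)) +
        c1 (lam j.1) j.1 (fun f => lam j.1 (a f)) e
          (fun f => lam j.1 ((a + sh e (a + sh e (a + sh e w))) f)))
      = if j.1 = e then 1 else 0 := by
    intro j
    simp only [lam_add, lam_sh]
    rw [c1_four (lam_self j.1 j.2)]
    by_cases hje : j.1 = e
    · rw [if_pos hje]
      rw [hje, bl_eq]
      have h2 : ∑ f, lam e (a f) = lam e e := by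
        rw [← map_sum, ha]
      rw [h2, lam_self e he, mul_one]
    · rw [if_neg hje, bl_ne _ _ (Ne.symm hje), mul_zero]
  rw [Finset.sum_congr rfl fun j _ => h1 j]
  rw [Finset.sum_eq_single (⟨e, he⟩ : {j : E d // j ≠ 0})]
  · simp
  · intro b _ hb
    rw [if_neg]
    intro h
    exact hb (Subtype.ext h)
  · intro h
    exact absurd (Finset.mem_univ _) h

end Pool.Agent.N36.EPS
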