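import Mathlib
import Pool.Agent.N36.EPS.Coc

/-!
For every `d` and every set `S` of nonzero elements of the elementary abelian group `E d`, a finite
group `K` of exponent dividing `8` with a surjection `f` to `E d` such that the elements of order
`8` of `K` are exactly the elements `g` with `f g ∈ S`.
-/

set_option autoImplicit false
set_option linter.unusedSectionVars false

namespace Pool.Agent.N36.EPS

variable {d : ℕ}

/-- the cocycle attached to a set `S` of nonzero elements -/
noncomputable def cS (S : Finset {j : E d // j ≠ 0}) (a : E d → E d) (e : E d) (w : E d → E d) :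
    ZMod 2 :=
  ∑ j ∈ S, c1 (lam j.1) j.1 (fun f => lam j.1 (a f)) e (fun f => lam j.1 (w f))

/-- the constant attached to `S` -/
noncomputable def kS (S : Finset {j : E d // j ≠ 0}) (a : E d → E d) (e : E d) (a' : E d → E d) :
    ZMod 2 :=
  ∑ j ∈ S, k1 (lam j.1) j.1 (fun f => lam j.1 (a f)) e (fun f => lam j.1 (a' f))

variable (S : Finset {j : E d // j ≠ 0})

lemma cS_mul (a a' : E d → E d) (e e' : E d) (w : E d → E d) :
    cS S (a + sh e a') (e + e') w = cS S a' e' w + cS S a e (a' + sh e' w) + kS S a e a' := by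
  unfold cS kS
  rw [← Finset.sum_add_distrib, ← Finset.sum_add_distrib]
  refine Finset.sum_congr rfl fun j _ => ?_
  rw [lam_add, lam_sh, lam_add, lam_sh]
  exact c1_mul (lam_self j.1 j.2) _ _ _ _ _

lemma cS_zero (w : E d → E d) : cS S 0 0 w = 0 := by
  unfold cS
  refine Finset.sum_eq_zero fun j _ => ?_
  have : (fun f => lam j.1 ((0 : E d → E d) f)) = 0 := by funext f; simp
  rw [this, c1_zero]

open Classical in
lemma cS_four (a : E d → E d) (e : E d) (ha : ∑ f, a f = e) (w : E d → E d) :
    cS S a e w + cS S a e (a + sh e w) +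
      (cS S a e (a + sh e (a + sh e w)) + cS S a e (a + sh e (a + sh e (a + sh e w))))
      = if ∃ j ∈ S, j.1 = e then 1 else 0 := by
  unfold cS
  rw [← Finset.sum_add_distrib, ← Finset.sum_add_distrib, ← Finset.sum_add_distrib]
  have h1 : ∀ j : {j : E d // j ≠ 0},
      c1 (lam j.1) j.1 (fun f => lam j.1 (a f)) e (fun f => lam j.1 (w f)) +
        c1 (lam j.1) j.1 (fun f => lam j.1 (a f)) e (fun f => lam j.1 ((a + sh e w) f)) +
      (c1 (lam j.1) j.1 (fun f => lam j.1 (a f)) e (fun f => lam j.1 ((a + sh e (a + sh e w)) f)) +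
        c1 (lam j.1) j.1 (fun f => lam j.1 (a f)) e
          (fun f => lam j.1 ((a + sh e (a + sh e (a + sh e w))) f)))
      = if j.1 = e then 1 else 0 := by
    intro j
    simp only [lam_add, lam_sh]
    rw [c1_four (lam_self j.1 j.2)]
    by_cases hje : j.1 = e
    · rw [if_pos hje]
      have he : e ≠ 0 := hje ▸ j.2
      rw [hje, bl_eq]
      have h2 : ∑ f, lam e (a f) = lam e e := by
        rw [← map_sum, ha]
      rw [h2, lam_self e he, mul_one]
    · rw [if_neg hje, bl_ne _ _ (Ne.symm hje), mul_zero]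
  rw [Finset.sum_congr rfl fun j _ => h1 j]
  by_cases hex : ∃ j ∈ S, j.1 = e
  · rw [if_pos hex]
    obtain ⟨j0, hj0, rfl⟩ := hex
    rw [Finset.sum_eq_single j0]
    · simp
    · intro b _ hb
      rw [if_neg]
      intro h
      exact hb (Subtype.ext h)
    · intro h
      exact absurd hj0 h
  · rw [if_neg hex]
    refine Finset.sum_eq_zero fun j hj => ?_
    rw [if_neg]
    intro h
    exact hex ⟨j, hj, h⟩

/-- the elements of the group -/
def GoodK (a : E d → E d) (e : E d) (s : ZMod 2) (g : Equiv.Perm ((E d → E d) × ZMod 2)) : Prop :=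
  ∑ f, a f = e ∧ ∀ w v, g (w, v) = (a + sh e w, v + (s + cS S a e w))

variable {S}

lemma goodK_one : GoodK S 0 0 0 1 := by
  refine ⟨by simp, fun w v => ?_⟩
  rw [cS_zero, sh_zero]; simp

lemma goodK_mul {a a' : E d → E d} {e e' : E d} {s s' : ZMod 2}
    {g g' : Equiv.Perm ((E d → E d) × ZMod 2)}
    (hg : GoodK S a e s g) (hg' : GoodK S a' e' s' g') :
    GoodK S (a + sh e a') (e + e') (s + s' + kS S a e a') (g * g') := by
  refine ⟨?_, fun w v => ?_⟩
  · have h : ∑ f, (sh e a') f = e' := by
      rw [← hg'.1]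
      exact Equiv.sum_comp (Equiv.addRight e) a'
    simp only [Pi.add_apply, Finset.sum_add_distrib]
    rw [h, hg.1]
  · rw [Equiv.Perm.mul_apply, hg'.2, hg.2, sh_add, sh_sh, add_assoc a]
    rw [cS_mul]
    congr 1
    linear_combination -z2 (kS S a e a')

variable (S) in
/-- the group -/
def KS : Subgroup (Equiv.Perm ((E d → E d) × ZMod 2)) where
  carrier := {g | ∃ a e s, GoodK S a e s g}
  one_mem' := ⟨0, 0, 0, goodK_one⟩
  mul_mem' := by
    rintro g g' ⟨a, e, s, hg⟩ ⟨a', e', s', hg'⟩
    exact ⟨_, _, _, goodK_mul hg hg'⟩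
  inv_mem' := by
    rintro g hg
    let M : Submonoid (Equiv.Perm ((E d → E d) × ZMod 2)) :=
      { carrier := {g | ∃ a e s, GoodK S a e s g}
        one_mem' := ⟨0, 0, 0, goodK_one⟩
        mul_mem' := by
          rintro g g' ⟨a, e, s, hg⟩ ⟨a', e', s', hg'⟩
          exact ⟨_, _, _, goodK_mul hg hg'⟩ }
    have h : g⁻¹ = g ^ (orderOf g - 1) := by
      have hpos : 0 < orderOf g := orderOf_pos g
      rw [inv_eq_iff_mul_eq_one, ← pow_succ', Nat.sub_add_cancel hpos, pow_orderOf_eq_one]
    show g⁻¹ ∈ M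
    rw [h]
    exact Submonoid.pow_mem _ hg _

/-- the projection, as a function on permutations -/
def psiK (g : Equiv.Perm ((E d → E d) × ZMod 2)) : E d := ∑ f, (g (0, 0)).1 f

lemma psiK_good {a : E d → E d} {e : E d} {s : ZMod 2} {g : Equiv.Perm ((E d → E d) × ZMod 2)}
    (hg : GoodK S a e s g) : psiK g = e := by
  unfold psiK
  rw [hg.2, sh_zero', add_zero, hg.1]

variable (S) in
/-- the projection homomorphism -/
def prK : KS S →* Multiplicative (E d) :=
  MonoidHom.mk' (fun g => Multiplicative.ofAdd (psiK g.1)) (by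
    rintro ⟨g, a, e, s, hg⟩ ⟨g', a', e', s', hg'⟩
    show Multiplicative.ofAdd (psiK (g * g')) = _
    rw [psiK_good (goodK_mul hg hg'), psiK_good hg, psiK_good hg', ofAdd_add])

lemma prK_surj : Function.Surjective (prK S) := by
  classical
  intro e0
  set e : E d := Multiplicative.toAdd e0 with he
  let a : E d → E d := fun f => if f = 0 then e else 0
  have ha : ∑ f, a f = e := by simp [a]
  have hact : Function.Bijective (fun w : E d → E d => a + sh e w) := by
    constructor
    · intro w w' hww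
      have h3 : sh e w = sh e w' := add_left_cancel hww
      have := congrArg (sh e) h3
      rwa [sh_invol, sh_invol] at this
    · intro w
      refine ⟨sh e (w - a), ?_⟩
      show a + sh e (sh e (w - a)) = w
      rw [sh_invol]; abel
  let g : (E d → E d) × ZMod 2 → (E d → E d) × ZMod 2 :=
    fun p => (a + sh e p.1, p.2 + (0 + cS S a e p.1))
  have hg : Function.Bijective g := by
    constructor
    · rintro ⟨w, v⟩ ⟨w', v'⟩ hwv
      simp only [g, Prod.mk.injEq] at hwv
      have h3 : w = w' := hact.1 hwv.1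
      subst h3
      have h4 := add_right_cancel hwv.2
      rw [h4]
    · rintro ⟨w, v⟩
      obtain ⟨w', hw'⟩ := hact.2 w
      refine ⟨(w', v - (0 + cS S a e w')), ?_⟩
      simp only [g]
      simp only at hw'
      rw [hw', sub_add_cancel]
  have hgood : GoodK S a e 0 (Equiv.ofBijective g hg) := ⟨ha, fun w v => rfl⟩
  refine ⟨⟨Equiv.ofBijective g hg, a, e, 0, hgood⟩, ?_⟩
  show Multiplicative.ofAdd (psiK (Equiv.ofBijective g hg)) = e0
  rw [psiK_good hgood]
  rfl

open Classical in
lemma powK_four {a : E d → E d} {e : E d} {s : ZMod 2} {g : Equiv.Perm ((E d → E d) × ZMod 2)}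
    (hg : GoodK S a e s g) (w : E d → E d) (v : ZMod 2) :
    (g ^ 4) (w, v) = (w, v + if ∃ j ∈ S, j.1 = e then 1 else 0) := by
  have hw : a + sh e (a + sh e (a + sh e (a + sh e w))) = w := by
    have h2 : ∀ w : E d → E d, a + sh e (a + sh e w) = w + (a + sh e a) := by
      intro w; rw [sh_add, sh_invol]; abel
    rw [h2, h2, add_assoc]
    have : (a + sh e a) + (a + sh e a) = 0 := by
      funext f; exact ee _
    rw [this, add_zero]
  rw [show (4 : ℕ) = 1 + 1 + 1 + 1 from rfl, pow_succ, pow_succ, pow_succ, pow_one]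
  simp only [Equiv.Perm.mul_apply]
  rw [hg.2, hg.2, hg.2, hg.2, hw, ← cS_four S a e hg.1 w]
  congr 1
  have h5 : ∀ v s x0 x1 x2 x3 : ZMod 2, v + (s + x0) + (s + x1) + (s + x2) + (s + x3)
      = v + (x0 + x1 + (x2 + x3)) := by decide
  exact h5 _ _ _ _ _ _

lemma powK_eight (g : KS S) : g ^ 8 = 1 := by
  classical
  obtain ⟨g, a, e, s, hg⟩ := g
  apply Subtype.ext
  show g ^ 8 = 1
  rw [show (8 : ℕ) = 4 + 4 from rfl, pow_add]
  ext1 ⟨w, v⟩
  rw [Equiv.Perm.mul_apply, powK_four hg, powK_four hg, add_assoc, z2, add_zero]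
  rfl

lemma powK_four_eq_one (g : KS S) :
    g ^ 4 = 1 ↔ ¬ ∃ j ∈ S, j.1 = Multiplicative.toAdd (prK S g) := by
  classical
  obtain ⟨g, a, e, s, hg⟩ := g
  have h1 : Multiplicative.toAdd (prK S ⟨g, a, e, s, hg⟩) = e := psiK_good hg
  rw [h1]
  constructor
  · intro h hex
    have h2 : g ^ 4 = 1 := congrArg Subtype.val h
    have h3 := powK_four hg 0 0
    rw [h2, if_pos hex] at h3
    have h4 := congrArg Prod.snd h3
    simp at h4
  · intro h
    apply Subtype.ext
    show g ^ 4 = 1
    ext1 ⟨w, v⟩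
    rw [powK_four hg, if_neg h, add_zero]
    rfl

end Pool.Agent.N36.EPS
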