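import Mathlib
import Pool.Agent.N36.EPS.Coc

set_option autoImplicit false
set_option linter.unusedSectionVars false

namespace Pool.Agent.N36.EPS

variable {d : ℕ} {V : Type}

/-- the base set -/
abbrev Om (d : ℕ) : Type := E d → E d

/-- the elements of the group -/
def Good (P : ZMod 2 → Equiv.Perm V → Prop) (a : E d → E d) (e : E d) (s : ZMod 2)
    (g : Equiv.Perm (Om d × V)) : Prop :=
  ∑ f, a f = e ∧ ∀ w : Om d, ∃ t : Equiv.Perm V, P (s + cc a e w) t ∧
    ∀ v, g (w, v) = (a + sh e w, t v)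

variable {P : ZMod 2 → Equiv.Perm V → Prop}

lemma good_one (h1 : P 0 1) : Good (d := d) P 0 0 0 1 := by
  refine ⟨by simp, fun w => ⟨1, ?_, fun v => ?_⟩⟩
  · rw [cc_zero, add_zero]; exact h1
  · rw [sh_zero]; simp

lemma good_mul (hm : ∀ x y s t, P x s → P y t → P (x + y) (s * t))
    {a a' : E d → E d} {e e' : E d} {s s' : ZMod 2} {g g' : Equiv.Perm (Om d × V)}
    (hg : Good P a e s g) (hg' : Good P a' e' s' g') :
    Good P (a + sh e a') (e + e') (s + s' + kk a e a') (g * g') := by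
  refine ⟨?_, fun w => ?_⟩
  · have h : ∑ f, (sh e a') f = e' := by
      rw [← hg'.1]
      exact Equiv.sum_comp (Equiv.addRight e) a'
    simp only [Pi.add_apply, Finset.sum_add_distrib]
    rw [h, hg.1]
  · obtain ⟨t', ht', hv'⟩ := hg'.2 w
    obtain ⟨t, ht, hv⟩ := hg.2 (a' + sh e' w)
    refine ⟨t * t', ?_, fun v => ?_⟩
    · have h := hm _ _ _ _ ht ht'
      rw [cc_mul]
      convert h using 1
      linear_combination z2 (kk a e a')
    · rw [Equiv.Perm.mul_apply, hv', hv, Equiv.Perm.mul_apply, sh_add, sh_sh, add_assoc]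

variable (d) in
/-- the group, as a submonoid -/
def GM (P : ZMod 2 → Equiv.Perm V → Prop) (h1 : P 0 1)
    (hm : ∀ x y s t, P x s → P y t → P (x + y) (s * t)) :
    Submonoid (Equiv.Perm (Om d × V)) where
  carrier := {g | ∃ a e s, Good P a e s g}
  one_mem' := ⟨0, 0, 0, good_one h1⟩
  mul_mem' := by
    rintro g g' ⟨a, e, s, hg⟩ ⟨a', e', s', hg'⟩
    exact ⟨_, _, _, good_mul hm hg hg'⟩

variable (d) in
/-- the group -/
def GS [Finite V] (P : ZMod 2 → Equiv.Perm V → Prop) (h1 : P 0 1)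
    (hm : ∀ x y s t, P x s → P y t → P (x + y) (s * t)) :
    Subgroup (Equiv.Perm (Om d × V)) :=
  { GM d P h1 hm with
    inv_mem' := by
      intro g hg
      have h : g⁻¹ = g ^ (orderOf g - 1) := by
        have hpos : 0 < orderOf g := orderOf_pos g
        rw [inv_eq_iff_mul_eq_one, ← pow_succ', Nat.sub_add_cancel hpos, pow_orderOf_eq_one]
      show g⁻¹ ∈ GM d P h1 hm
      rw [h]
      exact Submonoid.pow_mem _ hg _ }

section

variable [Finite V] (h1 : P 0 1) (hm : ∀ x y s t, P x s → P y t → P (x + y) (s * t))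

/-- the projection, as a function on permutations -/
def psi (v0 : V) (g : Equiv.Perm (Om d × V)) : E d := ∑ f, (g (0, v0)).1 f

lemma psi_good (v0 : V) {a : E d → E d} {e : E d} {s : ZMod 2} {g : Equiv.Perm (Om d × V)}
    (hg : Good P a e s g) : psi v0 g = e := by
  obtain ⟨t, _, hv⟩ := hg.2 0
  unfold psi
  rw [hv, sh_zero', add_zero, hg.1]

/-- the projection homomorphism -/
def prH (v0 : V) : GS d P h1 hm →* Multiplicative (E d) :=
  MonoidHom.mk' (fun g => Multiplicative.ofAdd (psi v0 g.1)) (by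
    rintro ⟨g, a, e, s, hg⟩ ⟨g', a', e', s', hg'⟩
    show Multiplicative.ofAdd (psi v0 (g * g')) = _
    rw [psi_good v0 (good_mul hm hg hg'), psi_good v0 hg, psi_good v0 hg', ofAdd_add])

lemma prH_surj (v0 : V) (hex : ∃ t, P 1 t) : Function.Surjective (prH (d := d) h1 hm v0) := by
  classical
  intro e0
  set e : E d := Multiplicative.toAdd e0 with he
  have hex' : ∀ x : ZMod 2, ∃ t, P x t := by
    intro x
    have hx : x = 0 ∨ x = 1 := by revert x; decide
    rcases hx with rfl | rfl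
    · exact ⟨1, h1⟩
    · exact hex
  choose T hT using hex'
  let a : E d → E d := fun f => if f = 0 then e else 0
  have ha : ∑ f, a f = e := by simp [a]
  have hinv : ∀ w : Om d, a + sh e (a + sh e w) = w + (a + sh e a) := by
    intro w; rw [sh_add, sh_invol]; abel
  have hact : Function.Bijective (fun w : Om d => a + sh e w) := by
    constructor
    · intro w w' hww
      have h3 : sh e w = sh e w' := add_left_cancel hww
      have := congrArg (sh e) h3
      rwa [sh_invol, sh_invol] at this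
    · intro w
      refine ⟨sh e (w - a), ?_⟩
      show a + sh e (sh e (w - a)) = w
      rw [sh_invol]; abel
  let g : Om d × V → Om d × V := fun p => (a + sh e p.1, T (0 + cc a e p.1) p.2)
  have hg : Function.Bijective g := by
    constructor
    · rintro ⟨w, v⟩ ⟨w', v'⟩ hwv
      simp only [g, Prod.mk.injEq] at hwv
      have h3 : w = w' := hact.1 hwv.1
      subst h3
      have h4 := (T (0 + cc a e w)).injective hwv.2
      rw [h4]
    · rintro ⟨w, v⟩
      obtain ⟨w', hw'⟩ := hact.2 w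
      refine ⟨(w', (T (0 + cc a e w')).symm v), ?_⟩
      simp only [g, Equiv.apply_symm_apply]
      simp only at hw'
      rw [hw']
  have hgood : Good P a e 0 (Equiv.ofBijective g hg) := by
    refine ⟨ha, fun w => ⟨T (0 + cc a e w), hT _, fun v => rfl⟩⟩
  refine ⟨⟨Equiv.ofBijective g hg, a, e, 0, hgood⟩, ?_⟩
  show Multiplicative.ofAdd (psi v0 (Equiv.ofBijective g hg)) = e0
  rw [psi_good v0 hgood]
  rfl

lemma pow_four {a : E d → E d} {e : E d} {s : ZMod 2} {g : Equiv.Perm (Om d × V)}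
    (hm : ∀ x y s t, P x s → P y t → P (x + y) (s * t))
    (hg : Good P a e s g) (he : e ≠ 0) (w : Om d) :
    ∃ t : Equiv.Perm V, P 1 t ∧ ∀ v, (g ^ 4) (w, v) = (w, t v) := by
  obtain ⟨t0, ht0, hv0⟩ := hg.2 w
  obtain ⟨t1, ht1, hv1⟩ := hg.2 (a + sh e w)
  obtain ⟨t2, ht2, hv2⟩ := hg.2 (a + sh e (a + sh e w))
  obtain ⟨t3, ht3, hv3⟩ := hg.2 (a + sh e (a + sh e (a + sh e w)))
  refine ⟨t3 * (t2 * (t1 * t0)), ?_, fun v => ?_⟩
  · have h := hm _ _ _ _ ht3 (hm _ _ _ _ ht2 (hm _ _ _ _ ht1 ht0))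
    have h4 := cc_four a e he hg.1 w
    convert h using 1
    rw [← h4]
    have h5 : ∀ s x0 x1 x2 x3 : ZMod 2, x0 + x1 + (x2 + x3)
        = s + x3 + (s + x2 + (s + x1 + (s + x0))) := by decide
    exact h5 _ _ _ _ _
  · have hw : a + sh e (a + sh e (a + sh e (a + sh e w))) = w := by
      have h2 : ∀ w : Om d, a + sh e (a + sh e w) = w + (a + sh e a) := by
        intro w; rw [sh_add, sh_invol]; abel
      rw [h2, h2, add_assoc]
      have : (a + sh e a) + (a + sh e a) = 0 := by
        funext f; exact ee _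
      rw [this, add_zero]
    rw [show (4 : ℕ) = 1 + 1 + 1 + 1 from rfl, pow_succ, pow_succ, pow_succ, pow_one]
    simp only [Equiv.Perm.mul_apply]
    rw [hv0, hv1, hv2, hv3, hw]

lemma pow_of_ne (hp : ∀ t, P 1 t → t ^ 16 = 1) (v0 : V) (g : GS d P h1 hm)
    (hg : prH h1 hm v0 g ≠ 1) : g ^ 64 = 1 := by
  obtain ⟨g, a, e, s, hgood⟩ := g
  have he : e ≠ 0 := by
    intro h0
    apply hg
    show Multiplicative.ofAdd (psi v0 g) = 1
    rw [psi_good v0 hgood, h0]; rfl
  apply Subtype.ext
  show g ^ 64 = 1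
  have h64 : g ^ 64 = (g ^ 4) ^ 16 := by rw [← pow_mul]
  rw [h64]
  ext1 ⟨w, v⟩
  obtain ⟨t, ht, hv⟩ := pow_four hm hgood he w
  have hk : ∀ k : ℕ, ∀ v, ((g ^ 4) ^ k) (w, v) = (w, (t ^ k) v) := by
    intro k
    induction k with
    | zero => intro v; simp
    | succ k ih =>
      intro v
      rw [pow_succ, Equiv.Perm.mul_apply, hv, ih, pow_succ, Equiv.Perm.mul_apply]
  rw [hk, hp t ht]
  simp

/-- diagonal embedding -/
def diagPerm (t : Equiv.Perm V) : Equiv.Perm (Om d × V) := Equiv.prodCongr (Equiv.refl _) t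

lemma diag_good (t : Equiv.Perm V) (ht : P 0 t) : Good (d := d) P 0 0 0 (diagPerm t) := by
  refine ⟨by simp, fun w => ⟨t, ?_, fun v => ?_⟩⟩
  · rw [cc_zero, add_zero]; exact ht
  · rw [sh_zero]; simp [diagPerm]

lemma not_solvable {H : Type} [Group H] (hH : ¬ Group.IsSolvable H) (f : H →* Equiv.Perm V)
    (hf : Function.Injective f) (hP : ∀ h, P 0 (f h)) : ¬ Group.IsSolvable (GS d P h1 hm) := by
  intro hs
  apply hH
  let F : H →* GS d P h1 hm :=
    { toFun := fun h => ⟨diagPerm (f h), 0, 0, 0, diag_good _ (hP h)⟩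
      map_one' := by
        apply Subtype.ext
        ext1 ⟨w, v⟩
        simp [diagPerm]
      map_mul' := by
        intro x y
        apply Subtype.ext
        ext1 ⟨w, v⟩
        simp [diagPerm] }
  have hF : Function.Injective F := by
    intro x y hxy
    apply hf
    ext v
    have h := congrArg (fun z : GS d P h1 hm => z.1 (0, v)) hxy
    simp only [F, MonoidHom.coe_mk, OneHom.coe_mk, diagPerm, Equiv.prodCongr_apply,
      Prod.map_apply, Equiv.coe_refl, id_eq, Prod.mk.injEq] at h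
    exact h.2
  exact Group.isSolvable_of_isSolvable_injective hF

end

end Pool.Agent.N36.EPS
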