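import Mathlib

set_option autoImplicit false
set_option linter.unusedSectionVars false

namespace Pool.Agent.N36.EPS

open Matrix
open scoped commutatorElement

section

variable {F : Type} [Field F] [Finite F] [CharP F 3]

lemma three_eq : (3 : F) = 0 := by
  have h : ((3 : ℕ) : F) = 0 := CharP.cast_eq_zero F 3
  exact_mod_cast h

lemma pow_nine (hF : Nat.card F = 9) (x : F) : x ^ 9 = x := by
  have : Fintype F := Fintype.ofFinite F
  have h := FiniteField.pow_card x
  rwa [← Nat.card_eq_fintype_card, hF] at h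

instance : Fact (Nat.Prime 3) := ⟨by norm_num⟩

/-- Frobenius -/
def fr (x : ZMod 2) : F →+* F := if x = 0 then RingHom.id F else frobenius F 3

/-- sign -/
def sg (x : ZMod 2) : F := if x = 0 then 1 else -1

lemma fr_zero : (fr 0 : F →+* F) = RingHom.id F := rfl
lemma fr_one : (fr 1 : F →+* F) = frobenius F 3 := rfl

lemma fr_one_apply (z : F) : (fr 1 : F →+* F) z = z ^ 3 := rfl

lemma fr_comp (hF : Nat.card F = 9) (x y : ZMod 2) (z : F) : fr x (fr y z) = fr (x + y) z := by
  have hx : x = 0 ∨ x = 1 := by revert x; decide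
  have hy : y = 0 ∨ y = 1 := by revert y; decide
  rcases hx with rfl | rfl <;> rcases hy with rfl | rfl
  · simp [fr_zero]
  · simp [fr_zero]
  · simp [fr_zero]
  · rw [fr_one_apply, fr_one_apply, show (1 : ZMod 2) + 1 = 0 from rfl, fr_zero, ← pow_mul]
    exact pow_nine hF z

lemma sg_add (x y : ZMod 2) : (sg (x + y) : F) = sg x * sg y := by
  have hx : x = 0 ∨ x = 1 := by revert x; decide
  have hy : y = 0 ∨ y = 1 := by revert y; decide
  have h0 : (sg 0 : F) = 1 := rfl
  have h1 : (sg 1 : F) = -1 := rfl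
  rcases hx with rfl | rfl <;> rcases hy with rfl | rfl
  · simp [h0]
  · simp [h0]
  · simp [h0]
  · rw [show (1 : ZMod 2) + 1 = 0 from rfl, h0, h1]; ring

lemma fr_sg (x y : ZMod 2) : fr x (sg y : F) = sg y := by
  have hy : y = 0 ∨ y = 1 := by revert y; decide
  rcases hy with rfl | rfl
  · show fr x (1 : F) = 1; simp
  · show fr x (-1 : F) = -1; simp

/-- semilinear maps with a determinant condition -/
def P (x : ZMod 2) (t : Equiv.Perm (Fin 2 → F)) : Prop :=
  ∃ A : Matrix (Fin 2) (Fin 2) F, A.det ^ 4 = sg x ∧ ∀ v, t v = A *ᵥ (fun i => fr x (v i))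

lemma P_one : P (F := F) 0 1 := by
  refine ⟨1, ?_, fun v => ?_⟩
  · simp [sg]
  · simp [fr_zero]

lemma mulVec_map (σ : F →+* F) (A : Matrix (Fin 2) (Fin 2) F) (v : Fin 2 → F) :
    (fun i => σ ((A *ᵥ v) i)) = (A.map σ) *ᵥ (fun i => σ (v i)) := by
  funext i
  simp [Matrix.mulVec, dotProduct, map_mul]

lemma P_mul (hF : Nat.card F = 9) (x y : ZMod 2) (s t : Equiv.Perm (Fin 2 → F))
    (hs : P x s) (ht : P y t) : P (x + y) (s * t) := by
  obtain ⟨A, hA, hsv⟩ := hs
  obtain ⟨B, hB, htv⟩ := ht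
  refine ⟨A * B.map (fr x), ?_, fun v => ?_⟩
  · have h : (B.map (fr x)).det = fr x B.det := by
      rw [← RingHom.mapMatrix_apply, ← RingHom.map_det]
    rw [det_mul, mul_pow, hA, h, ← map_pow, hB, fr_sg, sg_add]
  · rw [Equiv.Perm.mul_apply, hsv, htv, mulVec_map, mulVec_mulVec]
    congr 1
    funext i
    exact fr_comp hF x y (v i)

lemma pow_eight (hF : Nat.card F = 9) (A : Matrix (Fin 2) (Fin 2) F) (hA : A.det ^ 4 = -1) :
    (A * A.map (fr 1)) ^ 8 = 1 := by
  set M := A * A.map (fr 1) with hM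
  have h3 : (3 : F) = 0 := three_eq
  have hdet : M.det = -1 := by
    have h : (A.map (fr 1)).det = fr 1 A.det := by
      rw [← RingHom.mapMatrix_apply, ← RingHom.map_det]
    rw [hM, det_mul, h, fr_one_apply, ← hA]
    ring
  have h00 : M 0 0 = A 0 0 * A 0 0 ^ 3 + A 0 1 * A 1 0 ^ 3 := by
    rw [hM]; simp [Matrix.mul_apply, Fin.sum_univ_two, fr_one_apply]
  have h11 : M 1 1 = A 1 0 * A 0 1 ^ 3 + A 1 1 * A 1 1 ^ 3 := by
    rw [hM]; simp [Matrix.mul_apply, Fin.sum_univ_two, fr_one_apply]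
  set τ : F := M 0 0 + M 1 1 with hτ
  have hτ3 : τ ^ 3 = τ := by
    have h9 := pow_nine hF
    have e1 : τ ^ 3 = frobenius F 3 τ := rfl
    rw [e1, hτ, h00, h11]
    simp only [map_add, map_mul, frobenius_def, map_pow]
    have e2 : ∀ z : F, (z ^ 3) ^ 3 = z := fun z => by rw [← pow_mul]; exact h9 z
    simp only [e2]
    ring
  have hdet' : M 0 0 * M 1 1 - M 0 1 * M 1 0 = -1 := by rw [← hdet, Matrix.det_fin_two]
  have hCH : M ^ 2 = τ • M + 1 := by
    have hd2 : M 0 1 * M 1 0 = M 0 0 * M 1 1 + 1 := by linear_combination -hdet'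
    ext i j
    fin_cases i <;> fin_cases j
    · simp [pow_two, Matrix.mul_apply, Fin.sum_univ_two, hτ]
      linear_combination hd2
    · simp [pow_two, Matrix.mul_apply, Fin.sum_univ_two, hτ]
      ring
    · simp [pow_two, Matrix.mul_apply, Fin.sum_univ_two, hτ]
      ring
    · simp [pow_two, Matrix.mul_apply, Fin.sum_univ_two, hτ]
      linear_combination hd2
  have hM4 : M ^ 4 = (τ ^ 2 + 1) • (1 : Matrix (Fin 2) (Fin 2) F) := by
    have e : M ^ 4 = (M ^ 2) ^ 2 := by rw [← pow_mul]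
    rw [e, hCH]
    have e2 : (τ • M + 1) ^ 2 = (τ ^ 2) • M ^ 2 + (2 * τ) • M + 1 := by
      rw [pow_two, add_mul, mul_add, mul_one, one_mul, smul_mul_smul_comm, ← pow_two, ← pow_two,
        mul_smul, two_smul]
      abel
    rw [e2, hCH, smul_add, smul_smul, add_smul, one_smul]
    have e3 : (τ ^ 2 * τ) • M + (2 * τ) • M = 0 := by
      rw [← add_smul]
      have : τ ^ 2 * τ + 2 * τ = 0 := by
        linear_combination hτ3 + τ * h3
      rw [this, zero_smul]
    calc (τ ^ 2 * τ) • M + τ ^ 2 • (1 : Matrix (Fin 2) (Fin 2) F) + (2 * τ) • M + 1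
        = ((τ ^ 2 * τ) • M + (2 * τ) • M) + (τ ^ 2 • 1 + 1) := by abel
      _ = _ := by rw [e3, zero_add]
  have e : M ^ 8 = (M ^ 4) ^ 2 := by rw [← pow_mul]
  rw [e, hM4, smul_pow, one_pow]
  have : (τ ^ 2 + 1) ^ 2 = 1 := by
    linear_combination τ * hτ3 + τ ^ 2 * h3
  rw [this, one_smul]

lemma P_pow (hF : Nat.card F = 9) (t : Equiv.Perm (Fin 2 → F)) (ht : P 1 t) : t ^ 16 = 1 := by
  obtain ⟨A, hA, htv⟩ := ht
  have h2 : ∀ v, (t ^ 2) v = (A * A.map (fr 1)) *ᵥ v := by
    intro v
    rw [pow_two, Equiv.Perm.mul_apply, htv, htv, mulVec_map, mulVec_mulVec]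
    congr 1
    funext i
    rw [fr_comp hF]
    rfl
  have hk : ∀ k : ℕ, ∀ v, ((t ^ 2) ^ k) v = ((A * A.map (fr 1)) ^ k) *ᵥ v := by
    intro k
    induction k with
    | zero => intro v; simp
    | succ k ih =>
      intro v
      rw [pow_succ, Equiv.Perm.mul_apply, h2, ih, mulVec_mulVec, ← pow_succ]
  have e : t ^ 16 = (t ^ 2) ^ 8 := by rw [← pow_mul]
  rw [e]
  ext1 v
  rw [hk, pow_eight hF A hA]
  simp

lemma exists_delta (hF : Nat.card F = 9) : ∃ δ : F, δ ^ 4 = -1 := by
  obtain ⟨g, hg⟩ := IsCyclic.exists_generator (α := Fˣ)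
  have hcard : Nat.card Fˣ = 8 := by
    have := Nat.card_units F
    rw [hF] at this
    exact this
  have hord : orderOf g = 8 := by
    rw [orderOf_eq_card_of_forall_mem_zpowers hg, hcard]
  refine ⟨(g : F), ?_⟩
  have h8 : (g : F) ^ 8 = 1 := by
    have : g ^ 8 = 1 := by rw [← hord]; exact pow_orderOf_eq_one g
    have h := congrArg (fun z : Fˣ => (z : F)) this
    simpa using h
  have h4 : (g : F) ^ 4 ≠ 1 := by
    intro h
    have h' : g ^ 4 = 1 := by
      apply Units.ext
      simpa using h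
    have := orderOf_dvd_of_pow_eq_one h'
    rw [hord] at this
    omega
  have : ((g : F) ^ 4 - 1) * ((g : F) ^ 4 + 1) = 0 := by linear_combination h8
  rcases mul_eq_zero.1 this with h | h
  · exact absurd (sub_eq_zero.1 h) h4
  · exact eq_neg_of_add_eq_zero_left h

lemma P_ex (hF : Nat.card F = 9) : ∃ t : Equiv.Perm (Fin 2 → F), P 1 t := by
  obtain ⟨δ, hδ⟩ := exists_delta hF
  have hδ0 : δ ≠ 0 := by
    rintro rfl
    norm_num at hδ
  let f : (Fin 2 → F) → (Fin 2 → F) := fun v => (diagonal ![δ, 1]) *ᵥ (fun i => fr 1 (v i))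
  have hf : Function.Injective f := by
    intro v w hvw
    funext i
    have h := congrFun hvw i
    simp only [f, mulVec_diagonal] at h
    have hinj : Function.Injective (fr 1 : F →+* F) := RingHom.injective _
    fin_cases i
    · simp at h
      rcases h with h | h
      · exact hinj h
      · exact absurd h hδ0
    · simp at h
      exact hinj h
  have hb : Function.Bijective f := Finite.injective_iff_bijective.1 hf
  refine ⟨Equiv.ofBijective f hb, diagonal ![δ, 1], ?_, fun v => rfl⟩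
  rw [det_diagonal]
  simp [Fin.prod_univ_two, hδ, sg]

lemma sl_val_mul (x y : SpecialLinearGroup (Fin 2) F) : (x * y).1 = x.1 * y.1 := rfl
lemma sl_val_one : (1 : SpecialLinearGroup (Fin 2) F).1 = 1 := rfl

/-- the natural action of `SL₂` -/
def slHom : SpecialLinearGroup (Fin 2) F →* Equiv.Perm (Fin 2 → F) where
  toFun g :=
    { toFun := fun v => g.1 *ᵥ v
      invFun := fun v => (g⁻¹).1 *ᵥ v
      left_inv := fun v => by
        show (g⁻¹).1 *ᵥ (g.1 *ᵥ v) = v
        rw [mulVec_mulVec, ← sl_val_mul, inv_mul_cancel, sl_val_one, one_mulVec]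
      right_inv := fun v => by
        show g.1 *ᵥ ((g⁻¹).1 *ᵥ v) = v
        rw [mulVec_mulVec, ← sl_val_mul, mul_inv_cancel, sl_val_one, one_mulVec] }
  map_one' := by
    ext1 v
    show (1 : SpecialLinearGroup (Fin 2) F).1 *ᵥ v = v
    rw [sl_val_one, one_mulVec]
  map_mul' := by
    intro x y
    ext1 v
    show (x * y).1 *ᵥ v = x.1 *ᵥ (y.1 *ᵥ v)
    rw [mulVec_mulVec, sl_val_mul]

lemma slHom_apply (g : SpecialLinearGroup (Fin 2) F) (v : Fin 2 → F) : slHom g v = g.1 *ᵥ v := rfl

lemma slHom_inj : Function.Injective (slHom (F := F)) := by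
  intro x y hxy
  apply Subtype.ext
  ext i j
  have h := congrFun (congrArg (fun z : Equiv.Perm (Fin 2 → F) => z (Pi.single j 1)) hxy) i
  simp only [slHom_apply] at h
  rw [Matrix.mulVec_single_one, Matrix.mulVec_single_one] at h
  exact h

lemma slHom_P (g : SpecialLinearGroup (Fin 2) F) : P 0 (slHom g) := by
  refine ⟨g.1, ?_, fun v => ?_⟩
  · rw [g.2]; simp [sg]
  · rw [slHom_apply]; rfl

/-- upper transvection -/
def up (x : F) : SpecialLinearGroup (Fin 2) F := ⟨!![1, x; 0, 1], by simp [Matrix.det_fin_two]⟩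
/-- lower transvection -/
def lo (x : F) : SpecialLinearGroup (Fin 2) F := ⟨!![1, 0; x, 1], by simp [Matrix.det_fin_two]⟩

lemma up_val (x : F) : (up x).1 = !![1, x; 0, 1] := rfl
lemma lo_val (x : F) : (lo x).1 = !![1, 0; x, 1] := rfl

lemma sl2_not_solvable (hF : Nat.card F = 9) :
    ¬ Group.IsSolvable (SpecialLinearGroup (Fin 2) F) := by
  obtain ⟨δ, hδ⟩ := exists_delta hF
  obtain ⟨i, hi⟩ : ∃ i : F, i = δ ^ 2 := ⟨_, rfl⟩
  have hi2 : i * i = -1 := by rw [← hδ, hi]; ring
  have h3 : (3 : F) = 0 := three_eq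
  obtain ⟨h, hh⟩ : ∃ h : SpecialLinearGroup (Fin 2) F, h.1 = !![i, 0; 0, -i] := ⟨⟨!![i, 0; 0, -i], by
    simp only [Matrix.det_fin_two, Matrix.of_apply, Matrix.cons_val', Matrix.cons_val_zero,
      Matrix.cons_val_one, Matrix.cons_val_fin_one]
    linear_combination -hi2⟩, rfl⟩
  have hprod : h = up i * lo i * up i * (up (-1) * lo 1 * up (-1)) := by
    apply Subtype.ext
    simp only [sl_val_mul, up_val, lo_val, hh, Matrix.mul_fin_two]
    ext a b
    fin_cases a <;> fin_cases b <;> simp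
    · left; linear_combination hi2
    · linear_combination (1 : F) * hi2
    · linear_combination (-1 : F) * hi2
  have hcu : ∀ x : F, ⁅h, up x⁆ = up x := by
    intro x
    rw [commutatorElement_def, mul_inv_eq_iff_eq_mul, mul_inv_eq_iff_eq_mul]
    apply Subtype.ext
    simp only [sl_val_mul, up_val, hh, Matrix.mul_fin_two]
    ext a b
    fin_cases a <;> fin_cases b <;> simp
    linear_combination (i * x) * h3
  have hcl : ∀ x : F, ⁅h, lo x⁆ = lo x := by
    intro x
    rw [commutatorElement_def, mul_inv_eq_iff_eq_mul, mul_inv_eq_iff_eq_mul]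
    apply Subtype.ext
    simp only [sl_val_mul, lo_val, hh, Matrix.mul_fin_two]
    ext a b
    fin_cases a <;> fin_cases b <;> simp
    linear_combination (-i * x) * h3
  have hmem : ∀ n : ℕ, ∀ x : F, up x ∈ derivedSeries (SpecialLinearGroup (Fin 2) F) n ∧
      lo x ∈ derivedSeries (SpecialLinearGroup (Fin 2) F) n := by
    intro n
    induction n with
    | zero => intro x; simp [derivedSeries_zero]
    | succ n ih =>
      have hh : h ∈ derivedSeries (SpecialLinearGroup (Fin 2) F) n := by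
        rw [hprod]
        exact mul_mem (mul_mem (mul_mem (ih i).1 (ih i).2) (ih i).1)
          (mul_mem (mul_mem (ih (-1)).1 (ih 1).2) (ih (-1)).1)
      intro x
      rw [derivedSeries_succ]
      refine ⟨?_, ?_⟩
      · rw [← hcu x]
        exact Subgroup.commutator_mem_commutator hh (ih x).1
      · rw [← hcl x]
        exact Subgroup.commutator_mem_commutator hh (ih x).2
  intro hs
  obtain ⟨n, hn⟩ := hs.solvable
  have h1 := (hmem n 1).1
  rw [hn, Subgroup.mem_bot] at h1
  have h2 := congrArg (fun z : SpecialLinearGroup (Fin 2) F => z.1 0 1) h1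
  simp [up_val] at h2

end

end Pool.Agent.N36.EPS
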